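import Pool.Agent.MP_d32a63_an.H58.Spec

/-! Row OUT, part A: one cell seen from a side, and pairs of cells. -/

open Set Filter Topology Metric Polynomial
open Complex (I)
open Pool.Agent.MP_d32a63_an.H95 (Core Sec jet W0 Flat)
open Pool.Agent.MP_d32a63_an.H58

namespace Pool.Agent.MP_d32a63_an.H41

noncomputable section

theorem hull_sw1 (a b c : ℂ) : hull a b c = hull b a c := by
  unfold hull; rw [insert_comm]

theorem hull_sw2 (a b c : ℂ) : hull a b c = hull a c b := by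
  unfold hull; rw [pair_comm b c]

theorem seg_hull (a b c : ℂ) : segment ℝ a b ⊆ hull a b c :=
  (convex_convexHull ℝ _).segment_subset (subset_convexHull ℝ _ (by simp))
    (subset_convexHull ℝ _ (by simp))

theorem wh_mono {K K' s s' : ℝ} {g μ : ℂ → ℂ} {A A' : Set ℂ} (h : Wh K s g μ A) (hK0 : 0 ≤ K)
    (hK : K ≤ K') (hs0 : 0 ≤ s) (hs : s ≤ s') (hA : A' ⊆ A) : Wh K' s' g μ A' where
  bg x hx := (h.bg x (hA hx)).trans hK
  bm x hx := (h.bm x (hA hx)).trans hK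
  lip x hx y hy := (h.lip x (hA hx) y (hA hy)).trans (by
    have := norm_nonneg (y - x)
    exact mul_le_mul hK (by linarith) (by linarith) (hK0.trans hK))
  tay x hx y hy := (h.tay x (hA hx) y (hA hy)).trans (by
    have := norm_nonneg (y - x)
    exact mul_le_mul hK (pow_le_pow_left₀ (by linarith) (by linarith) 2) (by positivity)
      (hK0.trans hK))

theorem pick (N : ℕ) (h0 : 0 < N) (h6 : 6 ∣ N) (t : ℝ) (ht0 : 0 ≤ t) (ht1 : t ≤ 1) :
    ∃ x : ℤ, Sh N x ∧ |(x : ℝ) - t * N| ≤ 3 := by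
  obtain ⟨M, rfl⟩ := h6
  have hM : 1 ≤ M := by omega
  have hMR : (1 : ℝ) ≤ M := by exact_mod_cast hM
  set y : ℤ := ⌊t * ((6 * M : ℕ) : ℝ) / 3⌋ with hy
  have h1 : (y : ℝ) ≤ t * ((6 * M : ℕ) : ℝ) / 3 := Int.floor_le _
  have h2 : t * ((6 * M : ℕ) : ℝ) / 3 < y + 1 := Int.lt_floor_add_one _
  have hc : ((6 * M : ℕ) : ℝ) = 6 * M := by push_cast; ring
  have hy0 : 0 ≤ y := Int.floor_nonneg.2 (by positivity)
  have htN : t * ((6 * M : ℕ) : ℝ) ≤ 6 * M := by rw [hc]; nlinarith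
  have htN0 : 0 ≤ t * ((6 * M : ℕ) : ℝ) := by positivity
  have hy1 : y ≤ 2 * M := by
    have : (y : ℝ) ≤ 2 * M := by linarith
    exact_mod_cast this
  by_cases ha : y = 0
  · refine ⟨3, ⟨by norm_num, by push_cast; omega, by norm_num⟩, ?_⟩
    rw [ha] at h2
    rw [abs_le]; push_cast at h2 htN0 ⊢; constructor <;> linarith
  by_cases hb : y = 2 * M
  · refine ⟨6 * M - 3, ⟨by omega, by push_cast; omega, by omega⟩, ?_⟩
    rw [hb] at h1
    rw [abs_le]; push_cast at h1 htN ⊢; constructor <;> linarith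
  · refine ⟨3 * y, ⟨by omega, by push_cast; omega, by omega⟩, ?_⟩
    rw [abs_le]; push_cast at h1 h2 ⊢; constructor <;> linarith

theorem tri_len (hB : BASIC) {τ : ℝ} {w : ℂ} {A : ℤ} {a b c : ℂ} (h : Tri τ w A a b c) :
    τ ≤ ‖b - a‖ ∧ ‖b - a‖ ≤ 7 / 3 * τ := by
  have h2 : ‖acol (A + 1) - acol A‖ = 2 := hB.ac3 _ _ (by omega)
  have h3 : ‖(τ : ℂ) * (acol (A + 1) - acol A)‖ = 2 * τ := by
    rw [norm_mul, h2, Complex.norm_real, Real.norm_eq_abs, abs_of_pos h.t0]; ring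
  have e1 : b - a = (τ : ℂ) * (acol (A + 1) - acol A) +
      ((b - (w + τ * acol (A + 1))) - (a - (w + τ * acol A))) := by ring
  have e2 : (τ : ℂ) * (acol (A + 1) - acol A) = (b - a) -
      ((b - (w + τ * acol (A + 1))) - (a - (w + τ * acol A))) := by ring
  have h4 : ‖(b - (w + τ * acol (A + 1))) - (a - (w + τ * acol A))‖ ≤ τ / 1000 + τ / 1000 :=
    (norm_sub_le _ _).trans (add_le_add h.hb h.ha)
  have := h.t0
  constructor
  · have h5 := norm_sub_le (b - a) ((b - (w + τ * acol (A + 1))) - (a - (w + τ * acol A)))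
    rw [← e2, h3] at h5; linarith
  · have h5 := norm_add_le ((τ : ℂ) * (acol (A + 1) - acol A))
      ((b - (w + τ * acol (A + 1))) - (a - (w + τ * acol A)))
    rw [← e1, h3] at h5; linarith

/-- The point of parameter `x / N` on the side from `a` to `b`. -/
def nod (N : ℕ) (a b : ℂ) (x : ℤ) : ℂ := a + (x : ℂ) / (N : ℂ) * (b - a)

theorem near_node (hB : BASIC) {N : ℕ} (h0 : 0 < N) (h6 : 6 ∣ N) {τ : ℝ} {w : ℂ} {A : ℤ}
    {a b c : ℂ} (h : Tri τ w A a b c) {u : ℂ} (hu : u ∈ segment ℝ a b) :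
    ∃ x : ℤ, Sh N x ∧ ‖u - nod N a b x‖ ≤ 7 * (τ / N) ∧
      ∀ a0 : ℝ, ‖u - (a + b) / 2‖ ≤ a0 * τ → |2 * (x : ℝ) - N| ≤ 6 + 2 * (a0 * N) := by
  obtain ⟨s, t, hs, ht, hst, rfl⟩ := hu
  obtain ⟨x, hx, hxt⟩ := pick N h0 h6 t ht (by linarith)
  obtain ⟨l1, l2⟩ := tri_len hB h
  have hN : (0 : ℝ) < N := by exact_mod_cast h0
  have hNc : (N : ℂ) ≠ 0 := by exact_mod_cast h0.ne'
  have hs' : s = 1 - t := by linarith
  have hτ := h.t0
  refine ⟨x, hx, ?_, fun a0 ha0 => ?_⟩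
  · have e : s • a + t • b - nod N a b x = (((t * N - x) / N : ℝ) : ℂ) * (b - a) := by
      rw [hs']; unfold nod
      simp only [Complex.real_smul]; push_cast; field_simp; ring
    rw [e, norm_mul, Complex.norm_real, Real.norm_eq_abs, abs_div, abs_of_pos hN, abs_sub_comm]
    calc |(x : ℝ) - t * N| / N * ‖b - a‖ ≤ 3 / N * (7 / 3 * τ) := by gcongr
      _ = 7 * (τ / N) := by field_simp
  · have e : s • a + t • b - (a + b) / 2 = ((t - 1 / 2 : ℝ) : ℂ) * (b - a) := by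
      rw [hs']; simp only [Complex.real_smul]; push_cast; ring
    rw [e, norm_mul, Complex.norm_real, Real.norm_eq_abs] at ha0
    have h1 : |t - 1 / 2| * τ ≤ a0 * τ :=
      (mul_le_mul_of_nonneg_left l1 (abs_nonneg _)).trans ha0
    have h2 : |t - 1 / 2| ≤ a0 := le_of_mul_le_mul_right h1 hτ
    rw [abs_le] at h2 hxt ⊢
    constructor <;> nlinarith [h2.1, h2.2, hxt.1, hxt.2]

/-- One cell, at a fixed point of the plane, seen from its side `[a, b]`. -/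
structure View (N : ℕ) (K τ : ℝ) (w : ℂ) (A : ℤ) (a b c : ℂ) (g μ : ℂ → ℂ) (val : ℤ → ℂ) :
    Prop where
  t0 : 0 < τ
  t1 : τ ≤ 1
  ha : ‖a - (w + τ * acol A)‖ ≤ τ / 3000
  hb : ‖b - (w + τ * acol (A + 1))‖ ≤ τ / 3000
  hc : ‖c - (w + τ * acol (A + 2))‖ ≤ τ / 3000
  wh : Wh K (τ / N) g μ (hull a b c)
  nd : ∀ x : ℤ, 0 ≤ x → x ≤ N → ∀ u ∈ segment ℝ a b,
    ‖g u - val x‖ ≤ K * (‖u - nod N a b x‖ + τ / N)

section pair

variable {N : ℕ} {K τ : ℝ} {w w' : ℂ} {A : ℤ} {a b c c' : ℂ} {g μ g' μ' : ℂ → ℂ}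
  {val val' : ℤ → ℂ}

theorem View.tri (v : View N K τ w A a b c g μ val) : Tri τ w A a b c := by
  have := v.t0
  exact ⟨v.t0, v.t1, v.ha.trans (by linarith), v.hb.trans (by linarith), v.hc.trans (by linarith)⟩

theorem View.tri' (v : View N K τ w A a b c g μ val) (v' : View N K τ w' A a b c' g' μ' val') :
    Tri τ w' A a b c := by
  have := v.t0
  refine ⟨v.t0, v.t1, v'.ha.trans (by linarith), v'.hb.trans (by linarith), ?_⟩
  have e : c - (w' + τ * acol (A + 2)) = (c - (w + τ * acol (A + 2))) +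
      ((a - (w' + τ * acol A)) - (a - (w + τ * acol A))) := by ring
  rw [e]
  have h1 := norm_add_le (c - (w + τ * acol (A + 2)))
    ((a - (w' + τ * acol A)) - (a - (w + τ * acol A)))
  have h2 := norm_sub_le (a - (w' + τ * acol A)) (a - (w + τ * acol A))
  linarith [v.ha, v.hc, v'.ha]

theorem pair_data (hK : 0 ≤ K) (v : View N K τ w A a b c g μ val)
    (v' : View N K τ w' A a b c' g' μ' val') {u : ℂ} (hu : u ∈ segment ℝ a b) {x : ℤ}
    (hx : Sh N x) (hux : ‖u - nod N a b x‖ ≤ 7 * (τ / N)) {K' : ℝ}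
    (hD : ‖val x - val' x‖ ≤ K' * (τ / N)) : ‖g u - g' u‖ ≤ (16 * K + K') * (τ / N) := by
  have h1 := v.nd x hx.1.le hx.2.1.le u hu
  have h2 := v'.nd x hx.1.le hx.2.1.le u hu
  have h3 : K * (‖u - nod N a b x‖ + τ / N) ≤ K * (8 * (τ / N)) :=
    mul_le_mul_of_nonneg_left (by linarith) hK
  have e : g u - g' u = (g u - val x) + (val x - val' x) - (g' u - val' x) := by ring
  rw [e]
  have h4 := norm_sub_le ((g u - val x) + (val x - val' x)) (g' u - val' x)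
  have h5 := norm_add_le (g u - val x) (val x - val' x)
  linarith

theorem pair1 (hB : BASIC) {α CL : ℝ} (hL : LINK1 α CL) (h0 : 0 < N) (h6 : 6 ∣ N) (hK : 0 ≤ K)
    (v : View N K τ w A a b c g μ val) (v' : View N K τ w' A a b c' g' μ' val') {K' : ℝ}
    (hK' : 0 ≤ K') (hD : ∀ x, Sh N x → ‖val x - val' x‖ ≤ K' * (τ / N)) :
    ∀ u ∈ ball (w' + τ * actr) (τ / 40),
      ‖g u - g' u‖ ≤ CL * (16 * K + K') * (τ / N / τ) ^ α := by
  have hσ : 0 < τ / N := div_pos v.t0 (by exact_mod_cast h0)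
  refine hL τ (16 * K + K') (τ / N) w' A a b c c' g μ g' μ' (by linarith) hσ (v.tri' v') v'.tri
    (wh_mono v.wh hK (by linarith) hσ.le le_rfl subset_rfl)
    (wh_mono v'.wh hK (by linarith) hσ.le le_rfl subset_rfl) fun u hu => ?_
  obtain ⟨x, hx, hux, -⟩ := near_node hB h0 h6 v'.tri hu
  exact pair_data hK v v' hu hx hux (hD x hx)

/-- The conclusion of `LINK2` for fixed constants. -/
def L2 (τ K a0 η s0 : ℝ) : Prop :=
  ∀ (σ : ℝ) (w : ℂ) (A : ℤ) (a b c c' : ℂ) (g μ g' μ' : ℂ → ℂ), 0 < σ → σ ≤ s0 →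
    Tri τ w A a b c → Tri τ w A a b c' → Wh K σ g μ (hull a b c) → Wh K σ g' μ' (hull a b c') →
    (∀ u ∈ segment ℝ a b, ‖u - (a + b) / 2‖ ≤ a0 * τ → ‖g u - g' u‖ ≤ K * σ) →
    ∀ u ∈ ball (w + τ * actr) (τ / 40), ‖g u - g' u‖ ≤ η

theorem pair2 (hB : BASIC) {K' a0 η s0 : ℝ} (hL : L2 τ (16 * K + K') a0 η s0) (h0 : 0 < N)
    (h6 : 6 ∣ N) (hK : 0 ≤ K) (v : View N K τ w A a b c g μ val)
    (v' : View N K τ w' A a b c' g' μ' val') (hK' : 0 ≤ K') (hs : τ / N ≤ s0)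
    (hD : ∀ x, Sh N x → |2 * (x : ℝ) - N| ≤ 6 + 2 * (a0 * N) →
      ‖val x - val' x‖ ≤ K' * (τ / N)) :
    ∀ u ∈ ball (w' + τ * actr) (τ / 40), ‖g u - g' u‖ ≤ η := by
  have hσ : 0 < τ / N := div_pos v.t0 (by exact_mod_cast h0)
  refine hL (τ / N) w' A a b c c' g μ g' μ' hσ hs (v.tri' v') v'.tri
    (wh_mono v.wh hK (by linarith) hσ.le le_rfl subset_rfl)
    (wh_mono v'.wh hK (by linarith) hσ.le le_rfl subset_rfl) fun u hu hm => ?_
  obtain ⟨x, hx, hux, hmid⟩ := near_node hB h0 h6 v'.tri hu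
  exact pair_data hK v v' hu hx hux (hD x hx (hmid a0 hm))

end pair

section views

variable {r N : ℕ} {K0 K τ ε ℓ : ℝ} {ω x w : ℂ} {i : ℤ} {E0 E1 E2 : ℂ[X]}
  {S : ℤ × ℤ → ℂ[X]} {g μ : ℂ → ℂ → ℂ} {cc : ℂ → ℂ}

theorem ebar_eval (N : ℕ) (E0 E1 E2 : ℂ[X]) (m : ℤ × ℤ) (z : ℂ) :
    (ebar N E0 E1 E2 m).eval z = (N : ℂ)⁻¹ * (((N : ℂ) - m.1 - m.2) * E0.eval z +
      (m.1 : ℂ) * E1.eval z + (m.2 : ℂ) * E2.eval z) := by
  simp only [ebar, eval_mul, eval_add, eval_C]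

theorem near3 (hD : CD r N (1 / 3000) K0 τ ε ℓ ω x w i E0 E1 E2) {z : ℂ}
    (hz : z ∈ closedBall x (2 * ℓ)) :
    ‖E0.eval z - (w + τ * acol (i - 1))‖ ≤ τ / 3000 ∧
      ‖E1.eval z - (w + τ * acol (i + 1))‖ ≤ τ / 3000 ∧
      ‖E2.eval z - (w + τ * acol i)‖ ≤ τ / 3000 := by
  have := hD.l0
  obtain ⟨h1, h2, h3⟩ := hD.near z (closedBall_subset_closedBall (by linarith) hz)
  exact ⟨h1.trans (by linarith), h2.trans (by linarith), h3.trans (by linarith)⟩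

theorem view_top (hB : BASIC) (hD : CD r N (1 / 3000) K0 τ ε ℓ ω x w i E0 E1 E2)
    (hF : CF N K τ ℓ x w E0 E1 E2 S g μ cc) {z : ℂ} (hz : z ∈ closedBall x (2 * ℓ)) :
    View N K τ w (i + 1) (E1.eval z) (E0.eval z) (E2.eval z) (g z) (μ z)
      fun t => (S ((N : ℤ) - t, 0)).eval z := by
  obtain ⟨h1, h2, h3⟩ := near3 hD hz
  have hh : hull (E1.eval z) (E0.eval z) (E2.eval z) = hull (E0.eval z) (E1.eval z) (E2.eval z) :=
    hull_sw1 _ _ _
  have hNc : (N : ℂ) ≠ 0 := by exact_mod_cast hD.N0.ne'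
  refine ⟨hD.t0, hD.t1, h2, ?_, ?_, hh ▸ hF.wh z hz, fun t ht0 ht1 u hu => ?_⟩
  · rw [hB.ac1 (i + 1 + 1) (i - 1) (by omega)]; exact h1
  · rw [hB.ac1 (i + 1 + 2) i (by omega)]; exact h3
  · have := hF.nd z hz ((N : ℤ) - t, 0) ⟨by simp only; omega, le_rfl, by simp only; omega⟩ u
      (hh ▸ seg_hull _ _ _ hu)
    have e : (ebar N E0 E1 E2 ((N : ℤ) - t, 0)).eval z = nod N (E1.eval z) (E0.eval z) t := by
      rw [ebar_eval]; unfold nod; push_cast; field_simp; ring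
    rwa [e] at this

theorem view_left (hB : BASIC) (hD : CD r N (1 / 3000) K0 τ ε ℓ ω x w i E0 E1 E2)
    (hF : CF N K τ ℓ x w E0 E1 E2 S g μ cc) {z : ℂ} (hz : z ∈ closedBall x (2 * ℓ)) :
    View N K τ w i (E2.eval z) (E1.eval z) (E0.eval z) (g z) (μ z)
      fun t => (S (t, (N : ℤ) - t)).eval z := by
  obtain ⟨h1, h2, h3⟩ := near3 hD hz
  have hh : hull (E2.eval z) (E1.eval z) (E0.eval z) = hull (E0.eval z) (E1.eval z) (E2.eval z) := by
    rw [hull_sw1, hull_sw2, hull_sw1]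
  have hNc : (N : ℂ) ≠ 0 := by exact_mod_cast hD.N0.ne'
  refine ⟨hD.t0, hD.t1, h3, h2, ?_, hh ▸ hF.wh z hz, fun t ht0 ht1 u hu => ?_⟩
  · rw [hB.ac1 (i + 2) (i - 1) (by omega)]; exact h1
  · have := hF.nd z hz (t, (N : ℤ) - t) ⟨ht0, by simp only; omega, by simp only; omega⟩ u
      (hh ▸ seg_hull _ _ _ hu)
    have e : (ebar N E0 E1 E2 (t, (N : ℤ) - t)).eval z = nod N (E2.eval z) (E1.eval z) t := by
      rw [ebar_eval]; unfold nod; push_cast; field_simp; ring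
    rwa [e] at this

theorem view_right (hD : CD r N (1 / 3000) K0 τ ε ℓ ω x w i E0 E1 E2)
    (hF : CF N K τ ℓ x w E0 E1 E2 S g μ cc) {z : ℂ} (hz : z ∈ closedBall x (2 * ℓ)) :
    View N K τ w (i - 1) (E0.eval z) (E2.eval z) (E1.eval z) (g z) (μ z)
      fun t => (S (0, t)).eval z := by
  obtain ⟨h1, h2, h3⟩ := near3 hD hz
  have hh : hull (E0.eval z) (E2.eval z) (E1.eval z) = hull (E0.eval z) (E1.eval z) (E2.eval z) :=
    hull_sw2 _ _ _
  have hNc : (N : ℂ) ≠ 0 := by exact_mod_cast hD.N0.ne'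
  refine ⟨hD.t0, hD.t1, h1, ?_, ?_, hh ▸ hF.wh z hz, fun t ht0 ht1 u hu => ?_⟩
  · rw [show i - 1 + 1 = i by ring]; exact h3
  · rw [show i - 1 + 2 = i + 1 by ring]; exact h2
  · have := hF.nd z hz (0, t) ⟨le_rfl, ht0, by simp only; omega⟩ u
      (hh ▸ seg_hull _ _ _ hu)
    have e : (ebar N E0 E1 E2 (0, t)).eval z = nod N (E0.eval z) (E2.eval z) t := by
      rw [ebar_eval]; unfold nod; push_cast; field_simp; ring
    rwa [e] at this

theorem ball_hull (hH : HULL) (hD : CD r N (1 / 3000) K0 τ ε ℓ ω x w i E0 E1 E2)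
    (hF : CF N K τ ℓ x w E0 E1 E2 S g μ cc) :
    ball (w + τ * actr) (τ / 50) ⊆ hull (E0.eval x) (E1.eval x) (E2.eval x) := by
  have h0 := hD.l0
  have h1 := hD.t0
  have v := view_right hD hF (z := x) (mem_closedBall_self (by linarith))
  rw [hull_sw2]
  exact (ball_subset_ball (by linarith)).trans (hH _ _ _ _ _ _ v.tri)

theorem sig_le (hr : 1 ≤ r) (hD : CD r N (1 / 3000) K0 τ ε ℓ ω x w i E0 E1 E2) :
    τ / N ≤ ℓ ^ r ∧ ℓ ^ r ≤ ℓ := by
  have h0 := hD.l0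
  have h1 := hD.l1
  constructor
  · rw [hD.sig]
    calc ε * (ℓ / 8) ^ r ≤ 1 * ℓ ^ r := by
          gcongr
          · exact hD.e1
          · linarith
      _ = ℓ ^ r := one_mul _
  · calc ℓ ^ r ≤ ℓ ^ 1 := pow_le_pow_of_le_one h0.le (by linarith) hr
      _ = ℓ := pow_one _

theorem pow_le_sig (hD : CD r N (1 / 3000) K0 τ ε ℓ ω x w i E0 E1 E2) {ε0 : ℝ} (h0 : 0 < ε0)
    (hε : ε0 ≤ ε) : ℓ ^ (2 * r) ≤ 8 ^ r / ε0 * (τ / N) := by
  have l0 := hD.l0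
  have l1 := hD.l1
  have h1 : ℓ ^ (2 * r) ≤ ℓ ^ r := pow_le_pow_of_le_one l0.le (by linarith) (by omega)
  refine h1.trans ?_
  rw [hD.sig]
  calc ℓ ^ r = 8 ^ r / ε0 * (ε0 * (ℓ / 8) ^ r) := by rw [div_pow]; field_simp
    _ ≤ 8 ^ r / ε0 * (ε * (ℓ / 8) ^ r) := by gcongr

theorem rpow_le_sq (hD : CD r N (1 / 3000) K0 τ ε ℓ ω x w i E0 E1 E2) (hr : 1 ≤ r) {α : ℝ}
    (hα : 0 < α) (hrα : 2 ≤ r * α) : (τ / N / τ) ^ α ≤ (τ ^ α)⁻¹ * ℓ ^ 2 := by
  have l0 := hD.l0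
  have l1 := hD.l1
  have t0 := hD.t0
  have hN : (0 : ℝ) < N := by exact_mod_cast hD.N0
  have h1 : (τ / N / τ) ^ α ≤ (ℓ ^ r / τ) ^ α :=
    Real.rpow_le_rpow (by positivity) (by gcongr; exact (sig_le hr hD).1) hα.le
  refine h1.trans ?_
  rw [Real.div_rpow (by positivity) t0.le, ← Real.rpow_natCast, ← Real.rpow_mul l0.le,
    div_eq_inv_mul]
  have h2 : ℓ ^ ((r : ℝ) * α) ≤ ℓ ^ (2 : ℝ) :=
    Real.rpow_le_rpow_of_exponent_ge l0 (by linarith) hrα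
  rw [Real.rpow_two] at h2
  exact mul_le_mul_of_nonneg_left h2 (by positivity)

end views

end

end Pool.Agent.MP_d32a63_an.H41
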