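import Pool.Agent.MP_d32a63_an.H41.OutA

/-! Row OUT: from the realised gadget to the interface `Cells`. -/

open Set Filter Topology Metric Polynomial
open Complex (I)
open Pool.Agent.MP_d32a63_an.H95 (Core Sec jet W0 Flat)
open Pool.Agent.MP_d32a63_an.H58

namespace Pool.Agent.MP_d32a63_an.H41

noncomputable section

theorem cen_up (ℓ : ℝ) (h : 0 ≤ ℓ) (i j : ℤ) : ‖cen ℓ (i, j + 1) - cen ℓ (i, j)‖ = ℓ := by
  have e : cen ℓ (i, j + 1) - cen ℓ (i, j) = (ℓ : ℂ) * I := by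
    unfold cen; push_cast; ring
  rw [e, norm_mul, Complex.norm_I, Complex.norm_real, Real.norm_eq_abs, abs_of_nonneg h, mul_one]

theorem cen_rt (ℓ : ℝ) (h : 0 ≤ ℓ) (k j : ℤ) : ‖cen ℓ (k, j) - cen ℓ (k - 1, j)‖ = ℓ := by
  have e : cen ℓ (k, j) - cen ℓ (k - 1, j) = (ℓ : ℂ) := by
    unfold cen; push_cast; ring
  rw [e, Complex.norm_real, Real.norm_eq_abs, abs_of_nonneg h]

theorem V0_up {i j : ℤ} (h : (i + j) % 2 = 0) : V0 (i, j + 1) = V0 (i, j) := by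
  have h' : ¬(i + (j + 1)) % 2 = 0 := by omega
  simp only [V0, h, h', if_true, if_false]

theorem V1_up {i j : ℤ} (h : (i + j) % 2 = 0) : V1 (i, j + 1) = V1 (i, j) := by
  have h' : ¬(i + (j + 1)) % 2 = 0 := by omega
  simp only [V1, h, h', if_true, if_false]

theorem V2_left (k j : ℤ) : V2 (k - 1, j) = V0 (k, j) := by
  by_cases h : (k + j) % 2 = 0
  · have h' : ¬(k - 1 + j) % 2 = 0 := by omega
    simp only [V0, V2, h, h', if_true, if_false]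
  · have h' : (k - 1 + j) % 2 = 0 := by omega
    simp only [V0, V2, h, h', if_true, if_false]

theorem V1_left (k j : ℤ) : V1 (k - 1, j) = V2 (k, j) := by
  by_cases h : (k + j) % 2 = 0
  · have h' : ¬(k - 1 + j) % 2 = 0 := by omega
    simp only [V1, V2, h, h', if_true, if_false, sub_add_cancel]
  · have h' : (k - 1 + j) % 2 = 0 := by omega
    simp only [V1, V2, h, h', if_true, if_false, sub_add_cancel]

theorem act_norm (hB : BASIC) {W : Set ℂ} (hW : W0 ⊆ W) {ℓ : ℝ} (h0 : 0 < ℓ) {Q : ℤ × ℤ}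
    (hQ : act W ℓ Q) : ‖cen ℓ Q‖ ≤ 1 :=
  (hB.inn W _ hW fun h => Set.disjoint_left.1 hQ (mem_ball_self (by linarith))
    (subset_closure h)).2

theorem tay_bd (hB : BASIC) {n : ℕ} {W' : Set ℂ} {G : ℕ → ℂ → ℂ} (hS : Sec n W' G) {p : ℂ}
    (hp : p ∈ closure W') (h3 : ‖p‖ ≤ 3) (i : ℕ) {z : ℂ} (hz : ‖z - p‖ ≤ 3) :
    ‖jet (tay n G p) i z‖ ≤ 21 := by
  have := hB.bd n G p 1 zero_le_one (fun j hj => hS.bdd j hj.le p hp h3) i z hz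
  linarith

theorem tay_val (hB : BASIC) {n : ℕ} (hn : 0 < n) {W' : Set ℂ} {G : ℕ → ℂ → ℂ} (hS : Sec n W' G)
    {p : ℂ} (hp : p ∈ closure W') (h3 : ‖p‖ ≤ 3) {z : ℂ} (hz : ‖z - p‖ ≤ 3) :
    ‖(tay n G p).eval z - G 0 p‖ ≤ 21 * ‖z - p‖ := by
  have := hB.lip (tay n G p) 0 (closedBall p 3) 21 (convex_closedBall _ _)
    (fun u hu => tay_bd hB hS hp h3 _ (mem_closedBall_iff_norm.1 hu)) p
    (mem_closedBall_self (by norm_num)) z (mem_closedBall_iff_norm.2 hz)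
  rwa [hB.jt n G p 0 hn, hB.j0] at this

/-- All the data of one finite level, for one section. -/
structure Lv (r : ℕ) (Cg c : ℝ) (ω : ℂ) (W : Set ℂ) (F : ℕ → ℂ → ℂ) (Γ : Set Seg)
    (κ τ ε0 K0 : ℝ) (βc : ℝ → ℝ) (d a : ℝ) (D : GD) (O : Set Obj) (To : Obj → ℂ[X])
    (ν : Obj → ℝ) (ε : ℝ) (W' : Set ℂ) (Γ' : Set Seg) (rt : ℤ × ℤ → ℤ × ℤ → ℂ)
    (G : ℕ → ℂ → ℂ) (K : ℝ) (g μ : ℤ × ℤ → ℂ → ℂ → ℂ) (cc : ℤ × ℤ → ℂ → ℂ) : Prop where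
  prep : Prep r Cg c ω W F Γ κ τ ε0 K0 βc d a D O To ν ε
  out : GOut (2 * r) Cg κ (D.ℓ ^ (2 * r)) W D O ν W' Γ' rt
  sec : Sec (2 * r) W' G
  base : W0 ⊆ W
  r1 : 1 ≤ r
  cg : 0 < Cg
  e0 : 0 < ε0
  d0 : 0 < d
  d1 : d ≤ 1 / 10
  K1 : 1 ≤ K
  cf : ∀ Q, act W D.ℓ Q → CF D.N K τ D.ℓ (cen D.ℓ Q) (F 0 (cen D.ℓ Q))
    (EV (2 * r) F τ D.ℓ (V0 Q)) (EV (2 * r) F τ D.ℓ (V1 Q)) (EV (2 * r) F τ D.ℓ (V2 Q))
    (fun m => tay (2 * r) G (rt Q m)) (g Q) (μ Q) (cc Q)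

section level

variable {r : ℕ} {Cg c : ℝ} {ω : ℂ} {W : Set ℂ} {F : ℕ → ℂ → ℂ} {Γ : Set Seg}
  {κ τ ε0 K0 : ℝ} {βc : ℝ → ℝ} {d a : ℝ} {D : GD} {O : Set Obj} {To : Obj → ℂ[X]}
  {ν : Obj → ℝ} {ε : ℝ} {W' : Set ℂ} {Γ' : Set Seg} {rt : ℤ × ℤ → ℤ × ℤ → ℂ}
  {G : ℕ → ℂ → ℂ} {K : ℝ} {g μ : ℤ × ℤ → ℂ → ℂ → ℂ} {cc : ℤ × ℤ → ℂ → ℂ}

theorem root_norm (hB : BASIC) (hW : W0 ⊆ W) (hP : Prep r Cg c ω W F Γ κ τ ε0 K0 βc d a D O To ν ε)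
    {δ : ℝ} (hO : GOut (2 * r) Cg κ δ W D O ν W' Γ' rt) {Q : ℤ × ℤ} (hQ : act W D.ℓ Q)
    {m : ℤ × ℤ} (hm : Nd D.N m) : ‖rt Q m‖ ≤ 3 := by
  have h1 := act_norm hB hW hP.hyp.l0 hQ
  have h2 := (hO.root Q hQ m hm).2
  have h3 := hP.hyp.l1
  have h4 := norm_add_le (rt Q m - cen D.ℓ Q) (cen D.ℓ Q)
  rw [sub_add_cancel] at h4
  linarith

theorem Lv.ld (L : Lv r Cg c ω W F Γ κ τ ε0 K0 βc d a D O To ν ε W' Γ' rt G K g μ cc) :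
    D.ℓ ≤ d := by
  have h1 := L.prep.ld
  have h2 := L.d0
  have h3 := L.d1
  nlinarith

theorem Lv.sig (L : Lv r Cg c ω W F Γ κ τ ε0 K0 βc d a D O To ν ε W' Γ' rt G K g μ cc)
    {Q : ℤ × ℤ} (hQ : act W D.ℓ Q) : 0 < τ / D.N ∧ τ / D.N ≤ D.ℓ := by
  have hD := L.prep.cd Q hQ
  have h := sig_le L.r1 hD
  exact ⟨div_pos hD.t0 (by exact_mod_cast hD.N0), h.1.trans h.2⟩

theorem Lv.val (hB : BASIC)
    (L : Lv r Cg c ω W F Γ κ τ ε0 K0 βc d a D O To ν ε W' Γ' rt G K g μ cc)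
    {Q : ℤ × ℤ} (hQ : act W D.ℓ Q) {m : ℤ × ℤ} (hm : Nd D.N m) :
    ‖(tay (2 * r) G (rt Q m)).eval (cen D.ℓ Q) - G 0 (rt Q m)‖ ≤ 21 * D.ℓ := by
  have h1 := L.out.root Q hQ m hm
  have h2 : ‖cen D.ℓ Q - rt Q m‖ ≤ D.ℓ := by rw [norm_sub_rev]; exact h1.2
  have h3 := L.prep.hyp.l1
  have h4 := L.r1
  have := tay_val hB (by omega) L.sec h1.1 (root_norm hB L.base L.prep L.out hQ hm)
    (z := cen D.ℓ Q) (by linarith)
  linarith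

theorem Lv.dat (L : Lv r Cg c ω W F Γ κ τ ε0 K0 βc d a D O To ν ε W' Γ' rt G K g μ cc)
    {Q : ℤ × ℤ} (hQ : act W D.ℓ Q) :
    Cg * D.ℓ ^ (2 * r) ≤ Cg * (8 ^ r / ε0) * (τ / D.N) := by
  rw [mul_assoc]
  exact mul_le_mul_of_nonneg_left (pow_le_sig (L.prep.cd Q hQ) L.e0 L.prep.eps) L.cg.le

theorem Lv.mv (L : Lv r Cg c ω W F Γ κ τ ε0 K0 βc d a D O To ν ε W' Γ' rt G K g μ cc)
    {Q : ℤ × ℤ} (hQ : act W D.ℓ Q) {z : ℂ} (hz : ‖z - cen D.ℓ Q‖ = D.ℓ) {w : ℂ}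
    (hw : w ∈ tube (F 0) τ D.ℓ Q) :
    ‖g Q z w - g Q (cen D.ℓ Q) w - cc Q w * (z - cen D.ℓ Q)‖ ≤ K * D.ℓ ^ 2 ∧ ‖cc Q w‖ ≤ K := by
  have h0 := L.prep.hyp.l0
  have ht := (L.prep.cd Q hQ).t0
  have hw' : w ∈ ball (F 0 (cen D.ℓ Q) + τ * actr) (τ / 20) := ball_subset_ball (by linarith) hw
  exact ⟨(L.cf Q hQ).cr z (mem_closedBall_iff_norm.2 (by linarith)) w hw', (L.cf Q hQ).cb w hw'⟩

theorem Lv.lnk (L : Lv r Cg c ω W F Γ κ τ ε0 K0 βc d a D O To ν ε W' Γ' rt G K g μ cc)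
    {Q Q' : ℤ × ℤ} (hQ : act W D.ℓ Q) (hz : ‖cen D.ℓ Q' - cen D.ℓ Q‖ = D.ℓ) {B K' : ℝ}
    (hK : K + B ≤ K')
    (h : ∀ u ∈ ball (F 0 (cen D.ℓ Q') + τ * actr) (τ / 40),
      ‖g Q (cen D.ℓ Q') u - g Q' (cen D.ℓ Q') u‖ ≤ B * D.ℓ ^ 2) :
    Lnk (F 0) τ K' D.ℓ (fun Q => g Q (cen D.ℓ Q)) cc Q Q' := by
  intro w hw hw'
  have ht := (L.prep.cd Q hQ).t0
  have h1 := (L.mv hQ hz hw).1
  have h2 := h w (ball_subset_ball (by linarith) hw')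
  have e : g Q' (cen D.ℓ Q') w - g Q (cen D.ℓ Q) w - cc Q w * (cen D.ℓ Q' - cen D.ℓ Q) =
      (g Q (cen D.ℓ Q') w - g Q (cen D.ℓ Q) w - cc Q w * (cen D.ℓ Q' - cen D.ℓ Q)) -
        (g Q (cen D.ℓ Q') w - g Q' (cen D.ℓ Q') w) := by ring
  show ‖g Q' (cen D.ℓ Q') w - g Q (cen D.ℓ Q) w - cc Q w * (cen D.ℓ Q' - cen D.ℓ Q)‖ ≤ _
  rw [e]
  refine (norm_sub_le _ _).trans ((add_le_add h1 h2).trans ?_)
  rw [← add_mul]
  exact mul_le_mul_of_nonneg_right hK (by positivity)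

theorem fin_bd {CL K3 x y : ℝ} (hCL : 0 < CL) (hK3 : 0 ≤ K3) {t l : ℝ} (h : x ≤ CL * K3 * y)
    (hy : y ≤ t * l) : x ≤ CL * K3 * t * l := by
  refine h.trans ?_
  rw [mul_assoc (CL * K3)]
  exact mul_le_mul_of_nonneg_left hy (by positivity)

theorem Lv.ver (hB : BASIC) {α CL : ℝ} (hL : LINK1 α CL) (hα : 0 < α) (hrα : 2 ≤ r * α)
    (hCL : 0 < CL) (L : Lv r Cg c ω W F Γ κ τ ε0 K0 βc d a D O To ν ε W' Γ' rt G K g μ cc)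
    {K' : ℝ} (hK : K + CL * (16 * K + Cg * (8 ^ r / ε0)) * (τ ^ α)⁻¹ ≤ K') (i j : ℤ)
    (hij : (i + j) % 2 = 0) (h1 : act W D.ℓ (i, j)) (h2 : act W D.ℓ (i, j + 1)) :
    Lnk (F 0) τ K' D.ℓ (fun Q => g Q (cen D.ℓ Q)) cc (i, j) (i, j + 1) ∧
      Lnk (F 0) τ K' D.ℓ (fun Q => g Q (cen D.ℓ Q)) cc (i, j + 1) (i, j) := by
  have l0 := L.prep.hyp.l0
  have hK0 : 0 ≤ K := zero_le_one.trans L.K1
  have he := L.e0
  have hg := L.cg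
  have hK' : 0 ≤ Cg * (8 ^ r / ε0) := by positivity
  have hc := cen_up D.ℓ l0.le i j
  have hc' : ‖cen D.ℓ (i, j) - cen D.ℓ (i, j + 1)‖ = D.ℓ := by rw [norm_sub_rev]; exact hc
  have hsq := rpow_le_sq (L.prep.cd _ h1) L.r1 hα hrα
  obtain ⟨M, hM⟩ := L.prep.hyp.N6
  have key : ∀ z, ‖z - cen D.ℓ (i, j)‖ ≤ D.ℓ → ∀ x, Sh D.N x →
      ‖(tay (2 * r) G (rt (i, j) ((D.N : ℤ) - x, 0))).eval z -
        (tay (2 * r) G (rt (i, j + 1) ((D.N : ℤ) - x, 0))).eval z‖ ≤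
        Cg * (8 ^ r / ε0) * (τ / D.N) := by
    intro z hz x hx
    have hx' : Sh D.N ((D.N : ℤ) - x) := by
      obtain ⟨a1, a2, a3⟩ := hx
      exact ⟨by omega, by omega, by omega⟩
    have := L.out.shv G L.sec i j _ hij h1 h2 hx' z (mem_ball_iff_norm.2 (by linarith))
    rw [eval_sub] at this
    exact this.trans (L.dat h1)
  have vw : ∀ z, ‖z - cen D.ℓ (i, j)‖ ≤ D.ℓ → ‖z - cen D.ℓ (i, j + 1)‖ ≤ D.ℓ → _ ∧ _ :=
    fun z hz hz' => ⟨view_top hB (L.prep.cd _ h1) (L.cf _ h1) (z := z)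
      (mem_closedBall_iff_norm.2 (by linarith)), view_top hB (L.prep.cd _ h2) (L.cf _ h2) (z := z)
      (mem_closedBall_iff_norm.2 (by linarith))⟩
  constructor
  · refine L.lnk h1 hc hK fun u hu => ?_
    obtain ⟨v, v'⟩ := vw (cen D.ℓ (i, j + 1)) hc.le (by rw [sub_self, norm_zero]; exact l0.le)
    rw [V0_up hij, V1_up hij] at v'
    exact fin_bd hCL (by positivity) (pair1 hB hL L.prep.hyp.N0 L.prep.hyp.N6 hK0 v v' hK'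
      (fun x hx => key _ hc.le x hx) u hu) hsq
  · refine L.lnk h2 hc' hK fun u hu => ?_
    have h00 : ‖cen D.ℓ (i, j) - cen D.ℓ (i, j)‖ ≤ D.ℓ := by rw [sub_self, norm_zero]; exact l0.le
    obtain ⟨v, v'⟩ := vw (cen D.ℓ (i, j)) h00 hc'.le
    rw [V0_up hij, V1_up hij] at v'
    exact fin_bd hCL (by positivity) (pair1 hB hL L.prep.hyp.N0 L.prep.hyp.N6 hK0 v' v hK'
      (fun x hx => by rw [norm_sub_rev]; exact key _ h00 x hx) u hu) hsq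

theorem Lv.vwh (hB : BASIC)
    (L : Lv r Cg c ω W F Γ κ τ ε0 K0 βc d a D O To ν ε W' Γ' rt G K g μ cc) {k j : ℤ}
    (h1 : act W D.ℓ (k - 1, j)) (h2 : act W D.ℓ (k, j)) {z : ℂ}
    (hz : ‖z - cen D.ℓ (k - 1, j)‖ ≤ D.ℓ) (hz' : ‖z - cen D.ℓ (k, j)‖ ≤ D.ℓ) :
    View D.N K τ (F 0 (cen D.ℓ (k - 1, j))) (k - 1) ((EV (2 * r) F τ D.ℓ (V0 (k, j))).eval z)
      ((EV (2 * r) F τ D.ℓ (V2 (k, j))).eval z) ((EV (2 * r) F τ D.ℓ (V0 (k - 1, j))).eval z)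
      (g (k - 1, j) z) (μ (k - 1, j) z)
      (fun t => (tay (2 * r) G (rt (k - 1, j) (t, (D.N : ℤ) - t))).eval z) ∧
    View D.N K τ (F 0 (cen D.ℓ (k, j))) (k - 1) ((EV (2 * r) F τ D.ℓ (V0 (k, j))).eval z)
      ((EV (2 * r) F τ D.ℓ (V2 (k, j))).eval z) ((EV (2 * r) F τ D.ℓ (V1 (k, j))).eval z)
      (g (k, j) z) (μ (k, j) z) (fun t => (tay (2 * r) G (rt (k, j) (0, t))).eval z) := by
  have l0 := L.prep.hyp.l0
  have v := view_left hB (L.prep.cd _ h1) (L.cf _ h1) (z := z)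
    (mem_closedBall_iff_norm.2 (by linarith))
  rw [V2_left, V1_left] at v
  exact ⟨v, view_right (L.prep.cd _ h2) (L.cf _ h2) (z := z)
    (mem_closedBall_iff_norm.2 (by linarith))⟩

theorem Lv.keyh (L : Lv r Cg c ω W F Γ κ τ ε0 K0 βc d a D O To ν ε W' Γ' rt G K g μ cc) {k j : ℤ}
    (h1 : act W D.ℓ (k - 1, j)) (h2 : act W D.ℓ (k, j)) {z : ℂ}
    (hz : ‖z - cen D.ℓ (k, j)‖ ≤ D.ℓ) {x : ℤ} (hx : Sh D.N x)
    (hf : Free D.ℓ O k j ∨ ∃ o ∈ O, o.k = k ∧ j ∈ o.St ∧ D.Mid x) :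
    ‖(tay (2 * r) G (rt (k - 1, j) (x, (D.N : ℤ) - x))).eval z -
      (tay (2 * r) G (rt (k, j) (0, x))).eval z‖ ≤ Cg * (8 ^ r / ε0) * (τ / D.N) := by
  have l0 := L.prep.hyp.l0
  have := L.out.shh G L.sec k j x h1 h2 hx hf z (mem_ball_iff_norm.2 (by linarith))
  rw [eval_sub] at this
  exact this.trans (L.dat h1)

theorem Lv.hor (hB : BASIC) {α CL : ℝ} (hL : LINK1 α CL) (hα : 0 < α) (hrα : 2 ≤ r * α)
    (hCL : 0 < CL) (L : Lv r Cg c ω W F Γ κ τ ε0 K0 βc d a D O To ν ε W' Γ' rt G K g μ cc)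
    {K' : ℝ} (hK : K + CL * (16 * K + Cg * (8 ^ r / ε0)) * (τ ^ α)⁻¹ ≤ K') (k j : ℤ)
    (h1 : act W D.ℓ (k - 1, j)) (h2 : act W D.ℓ (k, j)) (hf : Fr W Γ d D.ℓ k j) :
    Lnk (F 0) τ K' D.ℓ (fun Q => g Q (cen D.ℓ Q)) cc (k - 1, j) (k, j) ∧
      Lnk (F 0) τ K' D.ℓ (fun Q => g Q (cen D.ℓ Q)) cc (k, j) (k - 1, j) := by
  have l0 := L.prep.hyp.l0
  have hK0 : 0 ≤ K := zero_le_one.trans L.K1
  have he := L.e0
  have hg := L.cg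
  have hK' : 0 ≤ Cg * (8 ^ r / ε0) := by positivity
  have hc := cen_rt D.ℓ l0.le k j
  have hc' : ‖cen D.ℓ (k - 1, j) - cen D.ℓ (k, j)‖ = D.ℓ := by rw [norm_sub_rev]; exact hc
  have hsq := rpow_le_sq (L.prep.cd _ h1) L.r1 hα hrα
  have hfr := L.prep.good.fr k j hf
  have h00 : ∀ z : ℂ, ‖z - z‖ ≤ D.ℓ := fun z => by rw [sub_self, norm_zero]; exact l0.le
  constructor
  · refine L.lnk h1 hc hK fun u hu => ?_
    obtain ⟨v, v'⟩ := L.vwh hB h1 h2 hc.le (h00 _)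
    exact fin_bd hCL (by positivity) (pair1 hB hL L.prep.hyp.N0 L.prep.hyp.N6 hK0 v v' hK'
      (fun x hx => L.keyh h1 h2 (h00 _) hx (Or.inl hfr)) u hu) hsq
  · refine L.lnk h2 hc' hK fun u hu => ?_
    obtain ⟨v, v'⟩ := L.vwh hB h1 h2 (h00 _) hc'.le
    exact fin_bd hCL (by positivity) (pair1 hB hL L.prep.hyp.N0 L.prep.hyp.N6 hK0 v' v hK'
      (fun x hx => by rw [norm_sub_rev]; exact L.keyh h1 h2 hc'.le hx (Or.inl hfr)) u hu) hsq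

theorem Lv.sta (hB : BASIC) {s0 : ℝ}
    (L : Lv r Cg c ω W F Γ κ τ ε0 K0 βc d a D O To ν ε W' Γ' rt G K g μ cc)
    (hL : L2 τ (16 * K + Cg * (8 ^ r / ε0)) a (d / 2) s0) (hs : D.ℓ ≤ s0)
    (hl : 4 * K * D.ℓ ≤ d) :
    ∀ g0 ∈ Γ, ∀ z ∈ segment ℝ g0.p g0.v, Disjoint (ball z (5 * d)) (closure W) →
      ∃ k j : ℤ, k % 3 = 0 ∧ (k : ℝ) * D.ℓ = z.re ∧ |((j : ℝ) + 1 / 2) * D.ℓ - z.im| ≤ 2 * d ∧
        ∀ w ∈ tube (F 0) τ D.ℓ (k - 1, j), w ∈ tube (F 0) τ D.ℓ (k, j) →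
          ‖g (k - 1, j) (cen D.ℓ (k - 1, j)) w - g (k, j) (cen D.ℓ (k, j)) w‖ ≤ d := by
  intro g0 hg0 z hz hd
  obtain ⟨o, ho, j, hj, e1, e2⟩ := L.prep.good.st g0 hg0 z hz hd
  obtain ⟨h1, h2, -⟩ := L.prep.hyp.geo.st o ho j hj
  refine ⟨o.k, j, L.prep.good.k3 o ho, e1, e2, fun w hw hw' => ?_⟩
  have l0 := L.prep.hyp.l0
  have l1 := L.prep.hyp.l1
  have hK0 : 0 ≤ K := zero_le_one.trans L.K1
  have he := L.e0
  have hg := L.cg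
  have ht := (L.prep.cd _ h1).t0
  have hK' : 0 ≤ Cg * (8 ^ r / ε0) := by positivity
  have hc := cen_rt D.ℓ l0.le o.k j
  have h00 : ∀ z : ℂ, ‖z - z‖ ≤ D.ℓ := fun z => by rw [sub_self, norm_zero]; exact l0.le
  obtain ⟨v, v'⟩ := L.vwh hB h1 h2 hc.le (h00 _)
  have hA := pair2 hB hL L.prep.hyp.N0 L.prep.hyp.N6 hK0 v v' hK' ((L.sig h1).2.trans hs)
    (fun x hx hm => L.keyh h1 h2 (h00 _) hx (Or.inr ⟨o, ho, rfl, hj, hx.2.2, by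
      have h3 := L.prep.xw
      have h4 : |2 * (x : ℝ) - D.N| ≤ 2 * D.xw := by linarith
      exact_mod_cast h4⟩)) w (ball_subset_ball (by linarith) hw')
  obtain ⟨b1, b2⟩ := L.mv h1 hc hw
  set P := g (o.k - 1, j) (cen D.ℓ (o.k, j)) w
  set P0 := g (o.k - 1, j) (cen D.ℓ (o.k - 1, j)) w
  set R := g (o.k, j) (cen D.ℓ (o.k, j)) w
  set t := cc (o.k - 1, j) w * (cen D.ℓ (o.k, j) - cen D.ℓ (o.k - 1, j)) with ht'
  have b3 : ‖t‖ ≤ K * D.ℓ := by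
    rw [ht', norm_mul, hc]; exact mul_le_mul_of_nonneg_right b2 l0.le
  have e : P0 - R = (P - R) - (P - P0 - t) - t := by ring
  rw [e]
  have b4 := norm_sub_le ((P - R) - (P - P0 - t)) t
  have b5 := norm_sub_le (P - R) (P - P0 - t)
  have b6 : K * D.ℓ ^ 2 ≤ K * D.ℓ := mul_le_mul_of_nonneg_left (by nlinarith) hK0
  linarith

/-- The conclusion of `LINK3` for fixed constants. -/
def L3 (τ K : ℝ) (βf : ℝ → ℝ) : Prop :=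
  ∀ η : ℝ, 0 < η → ∀ (σ : ℝ) (w : ℂ) (A : ℤ) (a b c : ℂ) (g μ : ℂ → ℂ) (c0 : ℂ), 0 < σ →
    σ ≤ βf η → Tri τ w A a b c → Wh K σ g μ (hull a b c) →
    (∀ u ∈ ball (w + τ * actr) (τ / 200), ‖g u - c0‖ ≤ βf η) → ‖g ((a + b) / 2) - c0‖ ≤ η

theorem Lv.pro (hB : BASIC) {βL : ℝ → ℝ}
    (L : Lv r Cg c ω W F Γ κ τ ε0 K0 βc d a D O To ν ε W' Γ' rt G K g μ cc) (hL : L3 τ K βL) :
    ∀ k y s, Prb W Γ d D.ℓ k y s → ∃ j : ℤ, |((j : ℝ) + 1 / 2) * D.ℓ - y.im - s * d| ≤ D.ℓ ∧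
      ∀ η : ℝ, 0 < η → d ≤ min (βL (η / 2)) (min (βc (η / 8)) (η / (4 * (K + 24)))) → ∀ c0 : ℂ,
        (∀ w ∈ ball (F 0 (cen D.ℓ (k, j)) + τ * actr) (τ / 200), ‖g (k, j) (cen D.ℓ (k, j)) w - c0‖ ≤
          min (βL (η / 2)) (min (βc (η / 8)) (η / (4 * (K + 24))))) → ‖G 0 y - c0‖ ≤ η := by
  intro k y s hp
  obtain ⟨o, ho, hth, rfl, rfl, j, hj, e⟩ := L.prep.good.pr k y s hp
  refine ⟨j, e, fun η hη hd c0 hc0 => ?_⟩
  obtain ⟨h1, h2, -⟩ := L.prep.hyp.geo.st o ho j hj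
  have l0 := L.prep.hyp.l0
  have l1 := L.prep.hyp.l1
  have hK0 : 0 ≤ K := zero_le_one.trans L.K1
  have hld := L.ld
  have hd1 : d ≤ βL (η / 2) := hd.trans (min_le_left _ _)
  have hd2 : d ≤ βc (η / 8) := hd.trans ((min_le_right _ _).trans (min_le_left _ _))
  have hd3 : d ≤ η / (4 * (K + 24)) := hd.trans ((min_le_right _ _).trans (min_le_right _ _))
  rw [le_div_iff₀ (by positivity)] at hd3
  obtain ⟨s0, s1⟩ := L.sig h2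
  have v := view_right (L.prep.cd _ h2) (L.cf _ h2) (z := cen D.ℓ (o.k, j))
    (mem_closedBall_self (by linarith))
  have b1 := hL (η / 2) (by linarith) _ _ _ _ _ _ _ _ c0 s0 (s1.trans (hld.trans hd1)) v.tri v.wh
    fun u hu => (hc0 u hu).trans (min_le_left _ _)
  obtain ⟨M, hM⟩ := L.prep.hyp.N6
  have hN0 := L.prep.hyp.N0
  have hMc : (M : ℂ) ≠ 0 := by
    have : M ≠ 0 := by omega
    exact_mod_cast this
  have b2 := v.nd (3 * M) (by omega) (by omega) _ (midpoint_mem_segment (𝕜 := ℝ) _ _)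
  have em : ∀ p q : ℂ, midpoint ℝ p q = (p + q) / 2 := fun p q => by
    rw [midpoint_eq_smul_add]; simp only [Complex.real_smul]
    rw [invOf_eq_inv]; push_cast; ring
  have en : ∀ p q : ℂ, nod D.N p q (3 * M) = (p + q) / 2 := fun p q => by
    unfold nod; rw [hM]; push_cast; field_simp; ring
  rw [em, en, sub_self, norm_zero, zero_add] at b2
  have hm : Nd D.N ((0 : ℤ), (3 * M : ℤ)) := ⟨le_rfl, by simp only; omega, by simp only; omega⟩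
  have b3 := L.val hB h2 hm
  have b4 := L.out.st G L.sec o ho j hj (3 * M) ⟨by omega, by
    have : 2 * (3 * (M : ℤ)) - D.N = 0 := by omega
    rw [this, abs_zero]; positivity⟩
  have b5 := (L.prep.good.prb o ho hth).1
  have b6 := L.prep.prb o ho hth (η / 8) (by linarith) hd2
  have b7 : D.ℓ ^ (2 * r) ≤ D.ℓ := by
    have := L.r1
    calc D.ℓ ^ (2 * r) ≤ D.ℓ ^ 1 := pow_le_pow_of_le_one l0.le (by linarith) (by omega)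
      _ = D.ℓ := pow_one _
  have b8 : K * (τ / D.N) ≤ K * d := mul_le_mul_of_nonneg_left (s1.trans hld) hK0
  set P := g (o.k, j) (cen D.ℓ (o.k, j)) (((EV (2 * r) F τ D.ℓ (V0 (o.k, j))).eval (cen D.ℓ (o.k, j)) +
    (EV (2 * r) F τ D.ℓ (V2 (o.k, j))).eval (cen D.ℓ (o.k, j))) / 2)
  set R := (tay (2 * r) G (rt (o.k, j) (0, 3 * M))).eval (cen D.ℓ (o.k, j))
  set T := G 0 (rt (o.k, j) (0, 3 * M))
  have e' : G 0 o.y - c0 = (G 0 o.y - T) - (R - T) - (P - R) + (P - c0) := by ring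
  rw [e']
  have c1 := norm_add_le ((G 0 o.y - T) - (R - T) - (P - R)) (P - c0)
  have c2 := norm_sub_le ((G 0 o.y - T) - (R - T)) (P - R)
  have c3 := norm_sub_le (G 0 o.y - T) (R - T)
  linarith

theorem Lv.flat (hB : BASIC) (hH : HULL)
    (L : Lv r Cg c ω W F Γ κ τ ε0 K0 βc d a D O To ν ε W' Γ' rt G K g μ cc) {e : ℂ}
    (hLip : LipD W' e (G 0)) {K' : ℝ} (hK : 2 * K + 44 ≤ K') :
    ∀ Q, act W D.ℓ Q → ball (cen D.ℓ Q) (3 * D.ℓ) ⊆ ball e (1 / 10) →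
      ∀ w ∈ tube (F 0) τ D.ℓ Q, ∀ w' ∈ tube (F 0) τ D.ℓ Q,
        ‖g Q (cen D.ℓ Q) w - g Q (cen D.ℓ Q) w'‖ ≤ K' * d := by
  intro Q hQ hb w hw w' hw'
  have l0 := L.prep.hyp.l0
  have hK0 : 0 ≤ K := zero_le_one.trans L.K1
  have hld := L.ld
  have hh := ball_hull hH (L.prep.cd Q hQ) (L.cf Q hQ)
  have hz : cen D.ℓ Q ∈ closedBall (cen D.ℓ Q) (2 * D.ℓ) := mem_closedBall_self (by linarith)
  obtain ⟨m, hm, b1⟩ := (L.cf Q hQ).ex _ hz w (hh hw)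
  obtain ⟨m', hm', b2⟩ := (L.cf Q hQ).ex _ hz w' (hh hw')
  have b3 := L.val hB hQ hm
  have b4 := L.val hB hQ hm'
  obtain ⟨r1, r2⟩ := L.out.root Q hQ m hm
  obtain ⟨r3, r4⟩ := L.out.root Q hQ m' hm'
  have b5 := hLip _ ⟨r1, hb (mem_ball_iff_norm.2 (by linarith))⟩ _
    ⟨r3, hb (mem_ball_iff_norm.2 (by linarith))⟩
  have b6 := norm_sub_le (rt Q m - cen D.ℓ Q) (rt Q m' - cen D.ℓ Q)
  rw [sub_sub_sub_cancel_right] at b6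
  have b8 : K * (τ / D.N) ≤ K * d := mul_le_mul_of_nonneg_left ((L.sig hQ).2.trans hld) hK0
  have b9 : (2 * K + 44) * d ≤ K' * d := mul_le_mul_of_nonneg_right hK L.d0.le
  set P := g Q (cen D.ℓ Q) w
  set P' := g Q (cen D.ℓ Q) w'
  set R := (tay (2 * r) G (rt Q m)).eval (cen D.ℓ Q)
  set R' := (tay (2 * r) G (rt Q m')).eval (cen D.ℓ Q)
  set T := G 0 (rt Q m)
  set T' := G 0 (rt Q m')
  have e' : P - P' = (P - R) + (R - T) + (T - T') - (R' - T') - (P' - R') := by ring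
  rw [e']
  have c1 := norm_sub_le ((P - R) + (R - T) + (T - T') - (R' - T')) (P' - R')
  have c2 := norm_sub_le ((P - R) + (R - T) + (T - T')) (R' - T')
  have c3 := norm_add_le ((P - R) + (R - T)) (T - T')
  have c4 := norm_add_le (P - R) (R - T)
  linarith

theorem bridge (hP : Prep r Cg c ω W F Γ κ τ ε0 K0 βc d a D O To ν ε)
    (hO : GOut (2 * r) Cg κ (D.ℓ ^ (2 * r)) W D O ν W' Γ' rt) : Bridge (2 * r) Γ W' Γ' := by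
  intro g0 hg0
  obtain ⟨o, ho, hth, e1, e2⟩ := hP.good.th g0 hg0
  obtain ⟨g', hg', e3, b1, b2⟩ := hO.thr o ho hth
  obtain ⟨b3, b4⟩ := hP.thr o ho hth
  have l0 := hP.hyp.l0
  have hΛ : ‖g0.p - g0.v‖ = o.Λ := by
    rw [← e1, ← e2]; unfold Obj.fin
    rw [sub_add_cancel_left, norm_neg, norm_mul, Complex.norm_I, mul_one, Complex.norm_real,
      Real.norm_eq_abs, abs_mul, abs_of_pos (show 0 < o.Λ by linarith)]
    rcases hP.hyp.geo.sg o ho with h | h <;> rw [h] <;> simp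
  refine ⟨g', hg', e3.trans e2, by rw [hΛ]; linarith, fun G hG => ?_⟩
  have := b2 G hG
  rw [hΛ, ← e1]; linarith

end level

theorem out : R_OUT := by
  intro hB hH hL2 hL3 r α CL Cg hr hα hrα hCL hCg hL1 hN hC hG hP s Γ hΓ κ hκ
  obtain ⟨c, ω, hc, hP1⟩ := hP Cg hCg
  have hκ0 : 0 < min κ 1 := lt_min hκ one_pos
  obtain ⟨τ, ε0, K0, d1, βc, hτ, hε0, hK0, hd1, hβc, hP2⟩ :=
    hP1 s Γ hΓ (min κ 1) hκ0 (min_le_right _ _)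
  obtain ⟨K1, ℓ1, hK1, hℓ1, hN1⟩ := hN c K0 τ ε0 (Cg / c + Cg + 1) hc hK0 hτ hε0 (by positivity)
  obtain ⟨K, hK, hC1⟩ := hC K0 τ K1 hK0 hτ hK1
  have hKp : 0 < K := by linarith
  obtain ⟨βL, hβL, hL3'⟩ := hL3 τ K hτ hKp
  set B := CL * (16 * K + Cg * (8 ^ r / ε0)) * (τ ^ α)⁻¹ with hBd
  have hB0 : 0 ≤ B := by positivity
  refine ⟨τ, 2 * K + 44 + B, fun η => min (βL (η / 2)) (min (βc (η / 8)) (η / (4 * (K + 24)))),
    hτ, by linarith, fun η hη => lt_min (hβL _ (by linarith))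
      (lt_min (hβc _ (by linarith)) (by positivity)), fun d0 hd0 => ?_⟩
  set d := min d0 (min d1 (1 / 10)) with hd
  have hdp : 0 < d := lt_min hd0 (lt_min hd1 (by norm_num))
  have hdd1 : d ≤ d1 := (min_le_right _ _).trans (min_le_left _ _)
  have hd10 : d ≤ 1 / 10 := (min_le_right _ _).trans (min_le_right _ _)
  obtain ⟨a, ha, hP3⟩ := hP2 d ⟨hdp, hdd1⟩
  obtain ⟨s0, hs0, hL2'⟩ := hL2 τ (16 * K + Cg * (8 ^ r / ε0)) a (d / 2) hτ (by positivity) ha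
    (by linarith)
  obtain ⟨D, O, To, ν, ε, hℓ, hPr⟩ := hP3 (min ℓ1 (min s0 (d / (4 * K))))
    (lt_min hℓ1 (lt_min hs0 (by positivity)))
  have l0 := hPr.hyp.l0
  have l1 := hPr.hyp.l1
  have hl1 : D.ℓ ≤ ℓ1 := hℓ.trans (min_le_left _ _)
  have hl2 : D.ℓ ≤ s0 := hℓ.trans ((min_le_right _ _).trans (min_le_left _ _))
  have hl3 : D.ℓ ≤ d / (4 * K) := hℓ.trans ((min_le_right _ _).trans (min_le_right _ _))
  rw [le_div_iff₀ (by positivity)] at hl3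
  obtain ⟨s', Γ', rt, hE, hΓ', hO⟩ := hG s (min κ 1) (D.ℓ ^ (2 * r)) hκ0 (min_le_right _ _)
    (by positivity) D O To ν hPr.hyp
  refine ⟨d, min_le_left _ _, s', Γ', ⟨hE.sub, hE.eq, fun j hj z =>
    (hE.near j hj z).trans (min_le_left _ _)⟩, hΓ', bridge hPr hO, fun G hS hOK e hLip => ?_⟩
  have hcf : ∀ Q, ∃ (g μ : ℂ → ℂ → ℂ) (cc : ℂ → ℂ), act s.W D.ℓ Q →
      CF D.N K τ D.ℓ (cen D.ℓ Q) (s.F 0 (cen D.ℓ Q)) (EV (2 * r) s.F τ D.ℓ (V0 Q))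
        (EV (2 * r) s.F τ D.ℓ (V1 Q)) (EV (2 * r) s.F τ D.ℓ (V2 Q))
        (fun m => tay (2 * r) G (rt Q m)) g μ cc := by
    intro Q
    by_cases hQ : act s.W D.ℓ Q
    swap
    · exact ⟨fun _ _ => 0, fun _ _ => 0, fun _ => 0, fun h => (hQ h).elim⟩
    have hbd : ∀ m, Nd D.N m → ∀ z ∈ closedBall (cen D.ℓ Q) 2,
        ‖(tay (2 * r) G (rt Q m)).eval z‖ ≤ 21 := by
      intro m hm z hz
      obtain ⟨r1, r2⟩ := hO.root Q hQ m hm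
      have h1 := mem_closedBall_iff_norm.1 hz
      have h2 := norm_sub_le (z - cen D.ℓ Q) (rt Q m - cen D.ℓ Q)
      rw [sub_sub_sub_cancel_right] at h2
      rw [← hB.j0]
      exact tay_bd hB hS r1 (root_norm hB s.base hPr hO hQ hm) 0 (by linarith)
    have hlk := hPr.lk Q hQ
    rw [show D.T Q = _ from funext (hPr.tq Q)] at hlk
    obtain ⟨g1, ν1, hNF⟩ := hN1 D.N ε D.ℓ ω _ _ _ _ _ _ (D.Lk Q) (fun m => tay (2 * r) G (rt Q m))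
      (hPr.cd Q hQ) hPr.eps hl1 hlk (fun m hm => ⟨hB.deg _ _ _, hbd m hm⟩)
      fun m m' hm hm' hnb ζ hζ => by
        have h1 := hO.lk G hS hOK Q hQ m m' hm hm' hnb ζ hζ
        rw [hPr.cc] at h1
        have h2 : Cg * D.β / min κ 1 ≤ Cg * D.ℓ ^ (2 * r) := by
          rw [div_le_iff₀ hκ0, mul_assoc, mul_comm (D.ℓ ^ (2 * r))]
          exact mul_le_mul_of_nonneg_left hPr.beta hCg.le
        refine h1.trans ?_
        linarith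
    obtain ⟨g', μ', cc', h⟩ := hC1 D.N ε D.ℓ ω _ _ _ _ _ _ _ g1 ν1 (hPr.cd Q hQ) hbd hNF
    exact ⟨g', μ', cc', fun _ => h⟩
  choose g μ cc hcf using hcf
  have L : Lv r Cg c ω s.W s.F Γ (min κ 1) τ ε0 K0 βc d a D O To ν ε s'.W Γ' rt G K g μ cc :=
    ⟨hPr, hO, hS, s.base, by omega, hCg, hε0, hdp, hd10, hK, hcf⟩
  refine ⟨D.ℓ, fun Q => g Q (cen D.ℓ Q), fun Q => μ Q (cen D.ℓ Q), cc, hdp, hd10, l0, hPr.ld,
    fun Q hQ => ?_, fun Q hQ w hw => ?_, L.ver hB hL1 hα hrα hCL (by linarith),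
    L.hor hB hL1 hα hrα hCL (by linarith), L.sta hB hL2' hl2 (by linarith), L.pro hB hL3',
    L.flat hB hH hLip (by linarith)⟩
  · exact wh_mono ((hcf Q hQ).wh _ (mem_closedBall_self (by linarith))) hKp.le (by linarith)
      (L.sig hQ).1.le ((L.sig hQ).2.trans L.ld) (ball_hull hH (hPr.cd Q hQ) (hcf Q hQ))
  · exact ((hcf Q hQ).cb w (ball_subset_ball (by linarith) hw)).trans (by linarith)

end

end Pool.Agent.MP_d32a63_an.H41
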